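import Mathlib
import Pool.Agent.X80.BP.Fin

/-!
# MP_cb714e_co, Q1: blocking partitions of graphs of maximum degree three

Every finite simple graph of maximum degree at most `3` has a `312`-blocking partition of width at
most `26`.
-/

set_option autoImplicit false

namespace Pool.Agent.Results.MP_cb714e_co.BlockingDegreeThree

open Pool.Agent.X80.BP

universe u

/-- `P` is a connected partition of the vertex set of `G`: the members of `P` are nonempty,
every vertex lies in exactly one of them, and each of them induces a connected subgraph. -/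
def IsConnPartition {V : Type u} (G : SimpleGraph V) (P : Set (Set V)) : Prop :=
  ∅ ∉ P ∧ (∀ v, ∃! S, S ∈ P ∧ v ∈ S) ∧ ∀ S ∈ P, (G.induce S).Connected

/-- A walk is `P`-clean if it meets every part in at most one vertex. -/
def IsClean {V : Type u} {G : SimpleGraph V} (P : Set (Set V)) {u v : V} (p : G.Walk u v) : Prop :=
  ∀ S ∈ P, {x | x ∈ p.support ∧ x ∈ S}.ncard ≤ 1

/-- `P` is `ℓ`-blocking: every `P`-clean path of `G` has length at most `ℓ`. -/
def IsBlocking {V : Type u} (G : SimpleGraph V) (P : Set (Set V)) (ℓ : ℕ) : Prop :=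
  ∀ (u v : V) (p : G.Walk u v), p.IsPath → IsClean P p → p.length ≤ ℓ

/-- Every finite graph with maximum degree at most three has a connected `312`-blocking partition
all whose parts have at most `26` vertices. -/
theorem result (V : Type u) [Finite V] (G : SimpleGraph V)
    (hG : ∀ v, (G.neighborSet v).ncard ≤ 3) :
    ∃ P : Set (Set V), IsConnPartition G P ∧ (∀ S ∈ P, S.ncard ≤ 26) ∧ IsBlocking G P 312 := by
  obtain ⟨R, h1, h2, h3⟩ := main G hG
  refine ⟨{S | ∃ v, S = {w | R w = R v}}, ⟨?_, ?_, ?_⟩, ?_, ?_⟩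
  · rintro ⟨v, hv⟩
    have : v ∈ (∅ : Set V) := by
      rw [hv]
      exact rfl
    exact this
  · intro v
    refine ⟨{w | R w = R v}, ⟨⟨v, rfl⟩, rfl⟩, ?_⟩
    rintro S ⟨⟨u, rfl⟩, hv⟩
    have hv' : R v = R u := hv
    rw [hv']
  · rintro S ⟨v, rfl⟩
    exact { preconnected := h1 (R v), nonempty := ⟨⟨v, rfl⟩⟩ }
  · rintro S ⟨v, rfl⟩
    exact h2 (R v)
  · intro u v p hp hcl
    refine h3 u v p hp ?_
    intro x hx y hy hxy
    have h4 := hcl {w | R w = R x} ⟨x, rfl⟩
    rw [Set.ncard_le_one (Set.toFinite _)] at h4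
    exact h4 x ⟨hx, rfl⟩ y ⟨hy, hxy.symm⟩

end Pool.Agent.Results.MP_cb714e_co.BlockingDegreeThree
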